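import Mathlib
import Pool.Agent.Q125.PV.Stm

/-! Project PV (helper125), job DUL. -/

set_option autoImplicit false

namespace Pool.Agent.Q298.PV

open Finset Pool.Agent.Q125.PV

/-- the end vertices of a path system use all of `Z'` -/
theorem end_all {V : Type} [DecidableEq V] {r : V → V → Prop} {U Z Z' : Finset V} {M : ℕ}
    {m : Fin M → ℕ} {P : Fin M → ℕ → V} (h : IsPS r U Z Z' m P) (hc : Z'.card = M) :
    ∀ z ∈ Z', ∃ c, P c (m c) = z := by
  have himg : univ.image (fun c => P c (m c)) = Z' := by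
    apply eq_of_subset_of_card_le
    · intro x hx
      rw [mem_image] at hx
      obtain ⟨c, _, rfl⟩ := hx
      exact h.en c
    · rw [card_image_of_injective, card_univ, Fintype.card_fin, hc]
      intro c c' hcc
      exact (h.inj c c' (m c) (m c') le_rfl le_rfl hcc).1
  intro z hz
  rw [← himg, mem_image] at hz
  obtain ⟨c, _, hc'⟩ := hz
  exact ⟨c, hc'⟩

theorem t_DUL : S_ASG → S_ORB → S_CLS → S_DUL := by
  classical
  intro hASG hORB hCLS V _ _ r Z Z' M m P hT hZZ hZ hZ' hM hmin
  obtain ⟨hps, hmn⟩ := hmin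
  obtain ⟨π, p1, p2, p3, p4⟩ := hCLS V r Z Z' M m P hT hZZ hZ hZ' hps
  set c : V → V → ℤ := fun u v => if u ∈ Z' ∨ u = v then 0 else 1 with hc
  have hcost : ∀ σ : Equiv.Perm V, ∑ u, c u (σ u) =
      ((univ.filter (fun u => u ∉ Z' ∧ σ u ≠ u)).card : ℤ) := by
    intro σ
    rw [card_filter, Nat.cast_sum]
    refine sum_congr rfl fun u _ => ?_
    simp only [hc]
    by_cases h1 : u ∈ Z'
    · simp [h1]
    · by_cases h2 : σ u = u
      · simp [h2]
      · have h3 : ¬ (u = σ u) := fun h => h2 h.symm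
        simp [h1, h2, h3]
  obtain ⟨O, I, q1, q2⟩ := hASG V (Alw r Z Z') c π p1 (by
    intro σ hσ
    obtain ⟨m', P', r1, r2⟩ := hORB V r Z Z' M σ hZZ hZ hσ
    rw [hcost, hcost]
    have h1 := hmn m' P' r1
    exact_mod_cast (p4.trans h1).trans r2)
  have hZn : Z.Nonempty := by
    rw [← card_pos]
    omega
  obtain ⟨z0, hz0, hz0m⟩ := exists_min_image Z O hZn
  refine ⟨fun v => O v - O z0, fun v => I v - O z0, ?_, ?_, ?_, ?_, ?_, ?_⟩
  · intro u v hu hv huv
    have h1 := q1 u v (Or.inr ⟨hu, hv, Or.inr huv⟩)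
    have h2 : c u v ≤ 1 := by
      simp only [hc]
      split_ifs <;> norm_num
    linarith
  · intro d j hj
    have h1 := q2 (P d j)
    rw [p2 d j hj] at h1
    have h2 : P d j ∉ Z' := by
      intro h3
      obtain ⟨d', hd'⟩ := end_all hps hZ' _ h3
      have h4 := hps.inj d d' j (m d') hj.le le_rfl hd'.symm
      obtain ⟨h5, h6⟩ := h4
      subst h5
      omega
    have h3 : P d j ≠ P d (j + 1) := by
      intro h4
      have h5 := (hps.inj d d j (j + 1) hj.le hj h4).2
      omega
    have h4 : c (P d j) (P d (j + 1)) = 1 := by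
      simp only [hc]
      rw [if_neg]
      rintro (h5 | h5)
      · exact h2 h5
      · exact h3 h5
    rw [h4] at h1
    linarith
  · intro v hv hv'
    have h1 := q1 v v (Or.inr ⟨hv', hv, Or.inl rfl⟩)
    have h2 : c v v = 0 := by simp [hc]
    linarith
  · intro v hv
    have h1 := q2 v
    rw [p3 v hv] at h1
    have h2 : c v v = 0 := by simp [hc]
    linarith
  · intro z hz
    have := hz0m z hz
    linarith
  · exact ⟨z0, hz0, by ring⟩

end Pool.Agent.Q298.PV
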