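import Mathlib
import Pool.Agent.Q125.PV.Stm

/-! Project PV (helper125), job FAM. -/

set_option autoImplicit false

namespace Pool.Agent.Q298.PV

open Finset Pool.Agent.Q125.PV

theorem tour_rv {V : Type} {r : V → V → Prop} (h : Tour r) : Tour (rv r) := by
  refine ⟨fun v => h.1 v, fun u v huv => ?_⟩
  unfold rv
  exact h.2 v u (Ne.symm huv)

/-- one family -/
theorem fam1 (hFO : S_FO) (V : Type) [Fintype V] [DecidableEq V] (r : V → V → Prop)
    [DecidableRel r] (hT : Tour r) (X : Finset V) (ℓ : ℕ) (hℓ : 1 ≤ ℓ) (n : ℕ) :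
    X.card + n * ℓ < Fintype.card V → ∃ (A : ℕ → Finset V) (s : ℕ → V),
      (∀ b < n, ∀ b' < n, b ≠ b' → Disjoint (A b) (A b')) ∧ (∀ b < n, Disjoint (A b) X) ∧
      (∀ b < n, s b ∈ A b) ∧ (∀ b < n, (A b).card ≤ ℓ) ∧
      (∀ b < n, ∀ a ∈ A b, a ≠ s b → r a (s b)) ∧
      (∀ b < n, ∀ Y : Finset V, X ⊆ Y → (∀ b' < n, A b' ⊆ Y) → ∀ u, u ∉ Y → 2 ^ (ℓ - 1) *
        (univ.filter (fun v => v ∉ Y ∧ ∀ a ∈ A b, r a v)).card ≤ (outN r u).card) := by
  induction n with
  | zero =>
    intro hc
    have hne : Nonempty V := Fintype.card_pos_iff.1 (by omega)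
    refine ⟨fun _ => ∅, fun _ => Classical.choice hne, ?_, ?_, ?_, ?_, ?_, ?_⟩ <;>
      · intro b hb
        exact absurd hb (by omega)
  | succ n ih =>
    intro hc
    have hc' : X.card + n * ℓ < Fintype.card V := by
      have : (n + 1) * ℓ = n * ℓ + ℓ := by ring
      omega
    obtain ⟨A, s, a1, a2, a3, a4, a5, a6⟩ := ih hc'
    set W : Finset V := X ∪ (range n).biUnion A with hW
    have hWc : W.card ≤ X.card + n * ℓ := by
      refine (card_union_le _ _).trans ?_
      apply Nat.add_le_add_left
      refine (card_biUnion_le).trans ?_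
      refine (sum_le_sum fun b hb => a4 b (mem_range.1 hb)).trans ?_
      simp
    set R : Finset V := univ \ W with hR
    have hRn : R.Nonempty := by
      rw [← card_pos, hR, card_sdiff_of_subset (subset_univ _), card_univ]
      omega
    obtain ⟨A', s', b1, b2, b3, b4, b5⟩ := hFO V r hT R ℓ hRn hℓ
    have hA'W : ∀ x ∈ A', x ∉ W := by
      intro x hx
      have := b1 hx
      rw [hR, mem_sdiff] at this
      exact this.2
    have hdA : ∀ b < n, Disjoint (A b) A' := by
      intro b hb
      rw [Finset.disjoint_left]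
      intro x hx hx'
      apply hA'W x hx'
      rw [hW]
      apply mem_union_right
      rw [mem_biUnion]
      exact ⟨b, mem_range.2 hb, hx⟩
    refine ⟨fun b => if b = n then A' else A b, fun b => if b = n then s' else s b,
      ?_, ?_, ?_, ?_, ?_, ?_⟩
    · intro b hb b' hb' hne
      by_cases h1 : b = n
      · have h2 : b' ≠ n := by omega
        simp only [h1, if_true, h2, if_false]
        exact (hdA b' (by omega)).symm
      · by_cases h2 : b' = n
        · simp only [h2, if_true, h1, if_false]
          exact hdA b (by omega)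
        · simp only [h1, h2, if_false]
          exact a1 b (by omega) b' (by omega) hne
    · intro b hb
      by_cases h1 : b = n
      · simp only [h1, if_true]
        rw [Finset.disjoint_left]
        intro x hx hx'
        apply hA'W x hx
        rw [hW]
        exact mem_union_left _ hx'
      · simp only [h1, if_false]
        exact a2 b (by omega)
    · intro b hb
      by_cases h1 : b = n
      · simp only [h1, if_true]
        exact b2
      · simp only [h1, if_false]
        exact a3 b (by omega)
    · intro b hb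
      by_cases h1 : b = n
      · simp only [h1, if_true]
        exact b3
      · simp only [h1, if_false]
        exact a4 b (by omega)
    · intro b hb
      by_cases h1 : b = n
      · simp only [h1, if_true]
        exact b4
      · simp only [h1, if_false]
        exact a5 b (by omega)
    · intro b hb Y hXY hAY u hu
      have hAY' : ∀ b' < n, A b' ⊆ Y := by
        intro b' hb'
        have h9 : (if b' = n then A' else A b') ⊆ Y := hAY b' (by omega)
        rwa [if_neg (by omega)] at h9
      by_cases h1 : b = n
      · simp only [h1, if_true]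
        have hWY : W ⊆ Y := by
          rw [hW]
          apply union_subset hXY
          rw [biUnion_subset]
          intro b' hb'
          exact hAY' b' (mem_range.1 hb')
        have huR : u ∈ R := by
          rw [hR, mem_sdiff]
          exact ⟨mem_univ _, fun h => hu (hWY h)⟩
        refine le_trans ?_ (b5 u huR)
        apply Nat.mul_le_mul_left
        apply card_le_card
        intro v hv
        rw [mem_filter] at hv ⊢
        refine ⟨?_, hv.2.2⟩
        rw [hR, mem_sdiff]
        exact ⟨mem_univ _, fun h => hv.2.1 (hWY h)⟩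
      · simp only [h1, if_false]
        exact a6 b (by omega) Y hXY hAY' u hu

theorem t_FAM : S_FO → S_FAM := by
  intro hFO V _ _ r _ hT X M ℓ hℓ hc
  have e : 2 * M * ℓ = M * ℓ + M * ℓ := by ring
  obtain ⟨A, s, a1, a2, a3, a4, a5, a6⟩ := fam1 hFO V r hT X ℓ hℓ M (by omega)
  set W : Finset V := X ∪ (range M).biUnion A with hW
  have hWc : W.card ≤ X.card + M * ℓ := by
    refine (card_union_le _ _).trans ?_
    apply Nat.add_le_add_left
    refine (card_biUnion_le).trans ?_
    refine (sum_le_sum fun b hb => a4 b (mem_range.1 hb)).trans ?_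
    simp
  obtain ⟨B, ρ, b1, b2, b3, b4, b5, b6⟩ := fam1 hFO V (rv r) (tour_rv hT) W ℓ hℓ M (by omega)
  have hAW : ∀ b < M, A b ⊆ W := by
    intro b hb x hx
    rw [hW]
    apply mem_union_right
    rw [mem_biUnion]
    exact ⟨b, mem_range.2 hb, hx⟩
  have hXW : X ⊆ W := subset_union_left
  set Y : Finset V := X ∪ univ.biUnion (fun b : Fin M => A b) ∪ univ.biUnion (fun b : Fin M => B b)
    with hY
  have hXY : X ⊆ Y := subset_union_left.trans subset_union_left
  have hAY : ∀ b < M, A b ⊆ Y := by
    intro b hb x hx
    rw [hY]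
    apply mem_union_left
    apply mem_union_right
    rw [mem_biUnion]
    exact ⟨⟨b, hb⟩, mem_univ _, hx⟩
  have hBY : ∀ b < M, B b ⊆ Y := by
    intro b hb x hx
    rw [hY]
    apply mem_union_right
    rw [mem_biUnion]
    exact ⟨⟨b, hb⟩, mem_univ _, hx⟩
  have hWY : W ⊆ Y := by
    rw [hW]
    apply union_subset hXY
    rw [biUnion_subset]
    intro b hb
    exact hAY b (mem_range.1 hb)
  refine ⟨fun b => A b, fun b => B b, fun b => s b, fun b => ρ b, ?_, ?_, ?_, ?_, ?_, ?_, ?_⟩
  · intro b b' hne
    exact a1 b b.2 b' b'.2 (fun h => hne (Fin.ext h))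
  · intro b b' hne
    exact b1 b b.2 b' b'.2 (fun h => hne (Fin.ext h))
  · intro b b'
    exact (disjoint_of_subset_right (hAW b b.2) (b2 b' b'.2)).symm
  · intro b
    exact a2 b b.2
  · intro b
    exact disjoint_of_subset_right hXW (b2 b b.2)
  · exact ⟨fun b => a3 b b.2, fun b => a4 b b.2, fun b => a5 b b.2,
      fun b u hu => a6 b b.2 Y hXY hAY u hu⟩
  · exact ⟨fun b => b3 b b.2, fun b => b4 b b.2, fun b => b5 b b.2,
      fun b u hu => b6 b b.2 Y hWY hBY u hu⟩

end Pool.Agent.Q298.PV
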