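import Mathlib
import Pool.Agent.Q125.PV.Stm

/-! Project PV (helper125), job HVY. -/

set_option autoImplicit false

namespace Pool.Agent.Q298.PV

open Finset Pool.Agent.Q125.PV

theorem t_SPC : S_SPC := by
  classical
  intro V _ _ r M ℓ X A B m P h
  have hsub : (univ \ (ord (X ∪ univ.biUnion A ∪ univ.biUnion B) m P ∪ inn m P)) ⊆
      ((X ∪ univ.biUnion A) ∪ univ.biUnion B) ∪ univ.biUnion (fun c : Fin M =>
        ({P c 1, P c 2, P c (m c - 1), P c (m c - 2)} : Finset V)) := by
    intro v hv
    rw [mem_sdiff, mem_union] at hv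
    have h1 : v ∉ ord (X ∪ univ.biUnion A ∪ univ.biUnion B) m P := fun h' => hv.2 (Or.inl h')
    have h2 : v ∉ inn m P := fun h' => hv.2 (Or.inr h')
    unfold ord at h1
    rw [mem_sdiff, not_and, not_not] at h1
    have h3 := h1 (mem_univ v)
    rw [mem_union] at h3
    rcases h3 with h3 | h3
    · exact mem_union_left _ h3
    · unfold vts vtc at h3
      rw [mem_biUnion] at h3
      obtain ⟨c, _, h4⟩ := h3
      rw [mem_image] at h4
      obtain ⟨j, hj, rfl⟩ := h4
      rw [mem_range] at hj
      have h5 : ¬ (3 ≤ j ∧ j + 3 ≤ m c) := by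
        intro h6
        apply h2
        unfold inn innc
        rw [mem_biUnion]
        refine ⟨c, mem_univ _, ?_⟩
        rw [mem_image]
        exact ⟨j, by rw [mem_filter, mem_range]; exact ⟨hj, h6⟩, rfl⟩
      rcases Nat.eq_zero_or_pos j with h6 | h6
      · subst h6
        apply mem_union_left
        apply mem_union_left
        apply mem_union_right
        rw [mem_biUnion]
        exact ⟨c, mem_univ _, h.pA c⟩
      · rcases Nat.lt_or_ge j (m c) with h7 | h7
        · apply mem_union_right
          rw [mem_biUnion]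
          refine ⟨c, mem_univ _, ?_⟩
          simp only [mem_insert, mem_singleton]
          have h8 : j = 1 ∨ j = 2 ∨ j = m c - 1 ∨ j = m c - 2 := by omega
          rcases h8 with h8 | h8 | h8 | h8
          · left; rw [h8]
          · right; left; rw [h8]
          · right; right; left; rw [← h8]
          · right; right; right; rw [← h8]
        · have h8 : j = m c := by omega
          subst h8
          apply mem_union_left
          apply mem_union_right
          rw [mem_biUnion]
          exact ⟨c, mem_univ _, h.pB c⟩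
  refine (card_le_card hsub).trans ?_
  have hA : (univ.biUnion A).card ≤ M * ℓ := by
    refine (card_biUnion_le).trans ?_
    refine (sum_le_sum fun c _ => h.cA c).trans ?_
    simp
  have hB : (univ.biUnion B).card ≤ M * ℓ := by
    refine (card_biUnion_le).trans ?_
    refine (sum_le_sum fun c _ => h.cB c).trans ?_
    simp
  have h4 : (univ.biUnion (fun c : Fin M =>
        ({P c 1, P c 2, P c (m c - 1), P c (m c - 2)} : Finset V))).card ≤ M * 4 := by
    refine (card_biUnion_le).trans ?_
    refine (sum_le_sum fun c _ => (card_le_four : _ ≤ 4)).trans ?_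
    simp
  have h1 := card_union_le ((X ∪ univ.biUnion A) ∪ univ.biUnion B) (univ.biUnion (fun c : Fin M =>
        ({P c 1, P c 2, P c (m c - 1), P c (m c - 2)} : Finset V)))
  have h2 := card_union_le (X ∪ univ.biUnion A) (univ.biUnion B)
  have h3 := card_union_le X (univ.biUnion A)
  have e : 2 * M * ℓ = M * ℓ + M * ℓ := by ring
  omega

theorem t_HVY : S_SPC → S_HVY := by
  classical
  intro hS V _ _ r r' _ k M ℓ N X A B m P h hk hM hℓ hX hN u hu
  by_contra hcon
  rw [not_or, not_exists] at hcon
  obtain ⟨h1, h2⟩ := hcon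
  rw [not_le] at h1
  simp only [not_le] at h2
  have h3 := hS V r M ℓ X A B m P h
  set Od := ord (X ∪ univ.biUnion A ∪ univ.biUnion B) m P with hOd
  have hsub : outN r' u ⊆ ((outN r' u ∩ Od) ∪ univ.biUnion (fun c => outN r' u ∩ innc m P c)) ∪
      (univ \ (Od ∪ inn m P)) := by
    intro v hv
    by_cases hv1 : v ∈ Od ∪ inn m P
    · rw [mem_union] at hv1
      apply mem_union_left
      rcases hv1 with hv1 | hv1
      · exact mem_union_left _ (mem_inter.2 ⟨hv, hv1⟩)
      · apply mem_union_right
        unfold inn at hv1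
        rw [mem_biUnion] at hv1 ⊢
        obtain ⟨c, hc, hv2⟩ := hv1
        exact ⟨c, hc, mem_inter.2 ⟨hv, hv2⟩⟩
    · apply mem_union_right
      exact mem_sdiff.2 ⟨mem_univ _, hv1⟩
  have h4 := card_le_card hsub
  have h5 := card_union_le ((outN r' u ∩ Od) ∪ univ.biUnion (fun c => outN r' u ∩ innc m P c))
      (univ \ (Od ∪ inn m P))
  have h6 := card_union_le (outN r' u ∩ Od) (univ.biUnion (fun c => outN r' u ∩ innc m P c))
  have h7 : (univ.biUnion (fun c => outN r' u ∩ innc m P c)).card ≤ M * (14 * (k * M * ℓ)) := by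
    refine (card_biUnion_le).trans ?_
    refine (sum_le_sum fun c _ => (h2 c).le).trans ?_
    simp
  have h8 : N ≤ 14 * (k * M * ℓ) + M * (14 * (k * M * ℓ)) + (X.card + 2 * M * ℓ + 4 * M) := by omega
  have e1 : k * M * ℓ ≤ k * M ^ 2 * ℓ := by
    have : M ≤ M ^ 2 := by nlinarith
    gcongr
  have e2 : M * (14 * (k * M * ℓ)) = 14 * (k * M ^ 2 * ℓ) := by ring
  have e3 : M * ℓ ≤ k * M ^ 2 * ℓ := by
    have : M ≤ k * M ^ 2 := by
      have h9 : M ≤ M ^ 2 := by nlinarith
      have h10 : M ^ 2 ≤ k * M ^ 2 := Nat.le_mul_of_pos_left _ hk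
      omega
    gcongr
  have e4 : M ≤ M * ℓ := Nat.le_mul_of_pos_right _ hℓ
  have e5 : 2 * M * ℓ = 2 * (M * ℓ) := by ring
  have e6 : 1 ≤ M * ℓ := Nat.mul_pos hM hℓ
  omega

end Pool.Agent.Q298.PV
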