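import Mathlib
import Pool.Agent.Q125.PV.Stm

/-! Project PV (helper125), job SKL. -/

set_option autoImplicit false

namespace Pool.Agent.Q298.PV

open Finset Pool.Agent.Q125.PV

theorem skl_end_all {V : Type} [DecidableEq V] {r : V → V → Prop} {U Z Z' : Finset V} {M : ℕ}
    {m : Fin M → ℕ} {P : Fin M → ℕ → V} (h : IsPS r U Z Z' m P) (hc : Z'.card = M) :
    ∀ z ∈ Z', ∃ c, P c (m c) = z := by
  have himg : univ.image (fun c => P c (m c)) = Z' := by
    apply eq_of_subset_of_card_le
    · intro x hx
      rw [mem_image] at hx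
      obtain ⟨c, _, rfl⟩ := hx
      exact h.en c
    · rw [card_image_of_injective, card_univ, Fintype.card_fin, hc]
      intro c c' hcc
      exact (h.inj c c' (m c) (m c') le_rfl le_rfl hcc).1
  intro z hz
  rw [← himg, mem_image] at hz
  obtain ⟨c, _, hc'⟩ := hz
  exact ⟨c, hc'⟩

theorem skl_start_all {V : Type} [DecidableEq V] {r : V → V → Prop} {U Z Z' : Finset V} {M : ℕ}
    {m : Fin M → ℕ} {P : Fin M → ℕ → V} (h : IsPS r U Z Z' m P) (hc : Z.card = M) :
    ∀ z ∈ Z, ∃ c, P c 0 = z := by
  have himg : univ.image (fun c => P c 0) = Z := by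
    apply eq_of_subset_of_card_le
    · intro x hx
      rw [mem_image] at hx
      obtain ⟨c, _, rfl⟩ := hx
      exact h.st c
    · rw [card_image_of_injective, card_univ, Fintype.card_fin, hc]
      intro c c' hcc
      exact (h.inj c c' 0 0 (Nat.zero_le _) (Nat.zero_le _) hcc).1
  intro z hz
  rw [← himg, mem_image] at hz
  obtain ⟨c, _, hc'⟩ := hz
  exact ⟨c, hc'⟩

theorem biUnion_reindex {V : Type} [DecidableEq V] {M : ℕ} (A : Fin M → Finset V)
    (α : Fin M → Fin M) (hα : Function.Surjective α) :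
    univ.biUnion (fun c => A (α c)) = univ.biUnion A := by
  ext v
  simp only [mem_biUnion, mem_univ, true_and]
  constructor
  · rintro ⟨c, hc⟩
    exact ⟨α c, hc⟩
  · rintro ⟨b, hb⟩
    obtain ⟨c, rfl⟩ := hα b
    exact ⟨c, hb⟩

theorem t_SKL : S_FAM → S_LNU → S_SKH → S_DEG → S_STR → S_REV → S_SKL := by
  classical
  intro hFAM hLNU hSKH hDEG hSTR hREV V _ _ r _ k t M ℓ N x hT hK hx hk hM hℓ htM h16 hN
  -- numbers
  have hMl : 1 ≤ M * ℓ := Nat.mul_pos hM hℓ
  have hMle : M ≤ M * ℓ := Nat.le_mul_of_pos_right _ hℓ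
  have hbig : 1000 * (M * ℓ) ≤ N := by
    have h1 : M * ℓ ≤ k * M ^ 2 * ℓ := by
      have h2 : M ≤ k * M ^ 2 := by
        have h3 : M ≤ M ^ 2 := by nlinarith
        have h4 : M ^ 2 ≤ k * M ^ 2 := Nat.le_mul_of_pos_left _ hk
        omega
      exact Nat.mul_le_mul_right _ h2
    omega
  set X : Finset V := univ.image x with hX
  have hXc : X.card ≤ M := by
    rw [hX]
    refine card_image_le.trans ?_
    rw [card_univ, Fintype.card_fin]
    exact htM
  have hV : N + 1 ≤ Fintype.card V := by
    have := hK.1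
    rwa [card_univ] at this
  have e2 : 2 * M * ℓ = M * ℓ + M * ℓ := by ring
  have e3 : 3 * M * ℓ = M * ℓ + M * ℓ + M * ℓ := by ring
  obtain ⟨A', B', s, ρ, d1, d2, d3, d4, d5, f1, f2⟩ := hFAM V r hT X M ℓ hℓ (by omega)
  set Y : Finset V := X ∪ univ.biUnion A' ∪ univ.biUnion B' with hY
  have hYc : Y.card ≤ 3 * M * ℓ := by
    have hA : (univ.biUnion A').card ≤ M * ℓ := by
      refine (card_biUnion_le).trans ?_
      refine (sum_le_sum fun c _ => f1.card c).trans ?_
      simp
    have hB : (univ.biUnion B').card ≤ M * ℓ := by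
      refine (card_biUnion_le).trans ?_
      refine (sum_le_sum fun c _ => f2.card c).trans ?_
      simp
    have h1 := card_union_le (X ∪ univ.biUnion A') (univ.biUnion B')
    have h2 := card_union_le X (univ.biUnion A')
    have h3 : Y.card = (X ∪ univ.biUnion A' ∪ univ.biUnion B').card := rfl
    omega
  have hAY : ∀ b, A' b ⊆ Y := by
    intro b v hv
    rw [hY]
    apply mem_union_left
    apply mem_union_right
    rw [mem_biUnion]
    exact ⟨b, mem_univ _, hv⟩
  have hBY : ∀ b, B' b ⊆ Y := by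
    intro b v hv
    rw [hY]
    apply mem_union_right
    rw [mem_biUnion]
    exact ⟨b, mem_univ _, hv⟩
  have hsinj : Function.Injective s := by
    intro b b' hbb
    by_contra hne
    have h1 := d1 b b' hne
    rw [Finset.disjoint_left] at h1
    exact h1 (f1.mem b) (by rw [hbb]; exact f1.mem b')
  have hρinj : Function.Injective ρ := by
    intro b b' hbb
    by_contra hne
    have h1 := d2 b b' hne
    rw [Finset.disjoint_left] at h1
    exact h1 (f2.mem b) (by rw [hbb]; exact f2.mem b')
  set Z : Finset V := univ.image s with hZ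
  set Z' : Finset V := univ.image ρ with hZ'
  have hZc : Z.card = M := by
    rw [hZ, card_image_of_injective _ hsinj, card_univ, Fintype.card_fin]
  have hZc' : Z'.card = M := by
    rw [hZ', card_image_of_injective _ hρinj, card_univ, Fintype.card_fin]
  have hZZ : Disjoint Z Z' := by
    rw [Finset.disjoint_left]
    intro v hv hv'
    rw [hZ, mem_image] at hv
    rw [hZ', mem_image] at hv'
    obtain ⟨b, _, rfl⟩ := hv
    obtain ⟨b', _, hb'⟩ := hv'
    have h1 := d3 b b'
    rw [Finset.disjoint_left] at h1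
    exact h1 (f1.mem b) (by rw [← hb']; exact f2.mem b')
  set U : Finset V := univ \ (Y \ (Z ∪ Z')) with hU
  have hUm : ∀ v, v ∈ U ↔ (v ∉ Y ∨ v ∈ Z ∪ Z') := by
    intro v
    rw [hU, mem_sdiff, mem_sdiff]
    simp only [mem_univ, true_and, not_and, not_not]
    tauto
  have hZU : Z ⊆ U := fun v hv => (hUm v).2 (Or.inr (mem_union_left _ hv))
  have hZU' : Z' ⊆ U := fun v hv => (hUm v).2 (Or.inr (mem_union_right _ hv))
  set H : ℕ := N - 3 * M * ℓ with hH
  have hKU : KS r H U := by
    apply hSTR V r N H (Y \ (Z ∪ Z')) hK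
    have : (Y \ (Z ∪ Z')).card ≤ Y.card := card_le_card sdiff_subset
    omega
  obtain ⟨m, P, hps, hL, hL'⟩ := hLNU V r U Z Z' M H hT hZU hZU' hZZ hZc hZc' hKU hM (by omega)
  -- reindexing
  have hα : ∀ c, ∃ b, s b = P c 0 := by
    intro c
    have := hps.st c
    rw [hZ, mem_image] at this
    obtain ⟨b, _, hb⟩ := this
    exact ⟨b, hb⟩
  have hβ : ∀ c, ∃ b, ρ b = P c (m c) := by
    intro c
    have := hps.en c
    rw [hZ', mem_image] at this
    obtain ⟨b, _, hb⟩ := this
    exact ⟨b, hb⟩
  choose α hα using hα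
  choose β hβ using hβ
  have hαi : Function.Injective α := by
    intro c c' hcc
    have h1 : P c 0 = P c' 0 := by rw [← hα, ← hα, hcc]
    exact (hps.inj c c' 0 0 (Nat.zero_le _) (Nat.zero_le _) h1).1
  have hβi : Function.Injective β := by
    intro c c' hcc
    have h1 : P c (m c) = P c' (m c') := by rw [← hβ, ← hβ, hcc]
    exact (hps.inj c c' _ _ le_rfl le_rfl h1).1
  have hαs : Function.Surjective α := Finite.surjective_of_injective hαi
  have hβs : Function.Surjective β := Finite.surjective_of_injective hβi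
  have hYe : univ.image x ∪ univ.biUnion (fun c => A' (α c)) ∪ univ.biUnion (fun c => B' (β c)) = Y := by
    rw [biUnion_reindex A' α hαs, biUnion_reindex B' β hβs, hY]
  have hend := skl_end_all hps hZc'
  have hstart := skl_start_all hps hZc
  have hvtsZ : ∀ v, v ∈ Z ∪ Z' → v ∈ vts m P := by
    intro v hv
    unfold vts vtc
    rw [mem_biUnion]
    rw [mem_union] at hv
    rcases hv with hv | hv
    · obtain ⟨c, hc⟩ := hstart v hv
      refine ⟨c, mem_univ _, ?_⟩
      rw [mem_image]
      exact ⟨0, by rw [mem_range]; omega, hc⟩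
    · obtain ⟨c, hc⟩ := hend v hv
      refine ⟨c, mem_univ _, ?_⟩
      rw [mem_image]
      exact ⟨m c, by rw [mem_range]; omega, hc⟩
  have hiff : ∀ v, v ∉ vts m P → (v ∈ U ↔ v ∉ Y) := by
    intro v hv
    rw [hUm]
    constructor
    · rintro (h1 | h1)
      · exact h1
      · exact absurd (hvtsZ v h1) hv
    · exact fun h1 => Or.inl h1
  obtain ⟨rv1, rv2, rv3⟩ := hREV V r
  have hTr := rv1 hT
  have hKr := rv2 N univ hK
  have hrev := rv3 M m P
  refine ⟨fun c => A' (α c), fun c => B' (β c), m, P, ?_, ?_, ?_⟩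
  · refine ⟨?_, ?_, ?_, ?_, ?_, ?_, ?_, ?_, ?_, ?_, ?_, ?_, ?_, ?_, ?_⟩
    · intro c c' hne
      exact d1 _ _ (fun h => hne (hαi h))
    · intro c c' hne
      exact d2 _ _ (fun h => hne (hβi h))
    · intro c c'
      exact d3 _ _
    · intro c
      exact d4 _
    · intro c
      exact d5 _
    · intro c
      exact f1.card _
    · intro c
      exact f2.card _
    · intro c
      rw [← hα]
      exact f1.mem _
    · intro c
      rw [← hβ]
      exact f2.mem _
    · intro c
      by_contra h0
      have h1 : m c = 0 := by omega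
      have h2 := hps.st c
      have h3 := hps.en c
      rw [h1] at h3
      exact (Finset.disjoint_left.1 hZZ) h2 h3
    · intro c a ha hne
      rw [← hα] at hne ⊢
      exact f1.sink _ a ha hne
    · intro c b hb hne
      rw [← hβ] at hne ⊢
      exact f2.sink _ b hb hne
    · exact hps.arc
    · exact hps.inj
    · intro c j hj1 hj2 hmem
      rw [hYe] at hmem
      have h1 := (hUm _).1 (hps.mem c j hj2.le)
      rcases h1 with h1 | h1
      · exact h1 hmem
      · rw [mem_union] at h1
        rcases h1 with h1 | h1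
        · obtain ⟨c', hc'⟩ := hstart _ h1
          have h2 := (hps.inj c' c 0 j (Nat.zero_le _) hj2.le hc').2
          omega
        · obtain ⟨c', hc'⟩ := hend _ h1
          obtain ⟨h2, h3⟩ := hps.inj c' c (m c') j le_rfl hj2.le hc'
          subst h2
          omega
  · rw [hYe]
    refine hSKH V r k M ℓ N (H - 2 * M) Y U (fun c => A' (α c)) (fun c => s (α c)) m P hT hk hM hℓ h16
      ?_ (fun b => hAY _) hYc hiff (hDEG V r hT N hK) hN (by omega) hL
    exact ⟨fun b => f1.mem _, fun b => f1.card _, fun b => f1.sink _, fun b => f1.few _⟩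
  · rw [hYe]
    refine hSKH V (rv r) k M ℓ N (H - 2 * M) Y U (fun c => B' (β c)) (fun c => ρ (β c)) m
      (revP m P) hTr hk hM hℓ h16
      ?_ (fun b => hBY _) hYc (by rw [hrev.1]; exact hiff) (hDEG V (rv r) hTr N hKr) hN (by omega) hL'
    exact ⟨fun b => f2.mem _, fun b => f2.card _, fun b => f2.sink _, fun b => f2.few _⟩

end Pool.Agent.Q298.PV
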