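import Mathlib
import Pool.Agent.Q125.PV.Stm

/-! Project PV (helper125), job SMO. -/

set_option autoImplicit false

namespace Pool.Agent.Q298.PV

open Finset Pool.Agent.Q125.PV

/-- the exponent -/
theorem expo {d x R k : ℕ} (h1 : 3 * d ≤ 4 * x) (h2 : 4 * R ≤ d) (_hk : 1 ≤ k) :
    d / (2 * k) ≤ (x - R) / k := by
  rw [← Nat.div_div_eq_div_mul]
  apply Nat.div_le_div_right
  omega

theorem t_SMO : S_SUM → S_CNT → S_SMO := by
  classical
  intro hSUM hCNT V _ _ r _ t k R N M Y A m P hT ht hk hN hR hM hinj hS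
  have ht' : (1 : ℝ) ≤ t := by exact_mod_cast ht
  have hq0 : (0 : ℝ) ≤ 1 - 1 / (t : ℝ) := by
    have : 1 / (t : ℝ) ≤ 1 := by
      rw [div_le_one (by linarith)]
      exact ht'
    linarith
  have hq1 : 1 - 1 / (t : ℝ) ≤ 1 := by
    have : 0 ≤ 1 / (t : ℝ) := by positivity
    linarith
  have htk : (0 : ℝ) ≤ (t : ℝ) * k := by positivity
  have hN0 : 0 < N := by
    have h1 : 1 ≤ (t * k) ^ 2 := Nat.one_le_pow _ _ (Nat.mul_pos ht hk)
    omega
  have hmono : ∀ {a b : ℕ}, a ≤ b → (t : ℝ) * k * (1 - 1 / (t : ℝ)) ^ b ≤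
      (t : ℝ) * k * (1 - 1 / (t : ℝ)) ^ a := fun h =>
    mul_le_mul_of_nonneg_left (pow_le_pow_of_le_one hq0 hq1 h) htk
  -- ordinary vertices
  have h1 : ∑ u ∈ ord Y m P, (t : ℝ) * k * (1 - 1 / (t : ℝ)) ^
      (((outN r u ∩ ord Y m P ∩ Ab r A).card - R) / k) ≤ 1 / 8 := by
    have h2 := hSUM V (ord Y m P) (fun u => (outN r u).card) t k N ht hk hN
      (fun u _ => hS.deg u) (fun e => by
        refine le_trans (card_le_card ?_) (hCNT V r hT e)
        intro u hu
        rw [mem_filter] at hu ⊢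
        exact ⟨mem_univ _, hu.2⟩)
    refine le_trans (sum_le_sum fun u hu => ?_) h2
    apply hmono
    apply expo (hS.a u hu) (by have := hS.deg u; omega) hk
  -- inner vertices
  set I : Finset (Σ _ : Fin M, ℕ) := univ.sigma (fun c =>
    (range (m c + 1)).filter (fun j => 3 ≤ j ∧ j + 3 ≤ m c)) with hI
  have hmemI : ∀ p : Σ _ : Fin M, ℕ, p ∈ I ↔ 3 ≤ p.2 ∧ p.2 + 3 ≤ m p.1 := by
    intro p
    rw [hI, mem_sigma, mem_filter, mem_range]
    constructor
    · exact fun h => h.2.2
    · intro h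
      exact ⟨mem_univ _, by omega, h⟩
  have himg : inn m P = I.image (fun p => P p.1 p.2) := by
    ext v
    unfold inn innc
    simp only [mem_biUnion, mem_image, mem_filter, mem_range, mem_univ, true_and]
    constructor
    · rintro ⟨c, j, ⟨_, h3⟩, rfl⟩
      exact ⟨⟨c, j⟩, (hmemI _).2 h3, rfl⟩
    · rintro ⟨⟨c, j⟩, hp, rfl⟩
      have h3 := (hmemI _).1 hp
      simp only at h3
      exact ⟨c, j, ⟨by omega, h3⟩, rfl⟩
  have h3 : ∑ u ∈ inn m P, (t : ℝ) * k * (1 - 1 / (t : ℝ)) ^
      (((outN r u ∩ ord Y m P).card - R) / k) ≤ 1 / 8 := by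
    rw [himg, sum_image]
    · have h4 := hSUM (Σ _ : Fin M, ℕ) I (fun p => (p.2 - 2) * N) t k N ht hk hN
        (fun p hp => by
          have := (hmemI p).1 hp
          exact Nat.le_mul_of_pos_left _ (by omega)) (fun e => by
          have h5 : I.filter (fun p => (p.2 - 2) * N ≤ e) ⊆
              (univ ×ˢ Icc 1 (e / N)).image (fun q : Fin M × ℕ => (⟨q.1, q.2 + 2⟩ : Σ _ : Fin M, ℕ)) := by
            intro p hp
            rw [mem_filter] at hp
            have h6 := (hmemI p).1 hp.1
            rw [mem_image]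
            refine ⟨(p.1, p.2 - 2), ?_, ?_⟩
            · rw [mem_product, mem_Icc]
              refine ⟨mem_univ _, by simp only; omega, ?_⟩
              simp only
              rw [Nat.le_div_iff_mul_le hN0]
              exact hp.2
            · have h7 : p.2 - 2 + 2 = p.2 := by omega
              simp only [h7]
          refine (card_le_card h5).trans (card_image_le.trans ?_)
          rw [card_product, card_univ, Fintype.card_fin, Nat.card_Icc, Nat.add_sub_cancel]
          have h8 : M * (e / N) ≤ N * (e / N) := Nat.mul_le_mul_right _ hM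
          have h9 : N * (e / N) ≤ e := Nat.mul_div_le e N
          omega)
      refine le_trans (sum_le_sum fun p hp => ?_) h4
      apply hmono
      have h6 := (hmemI p).1 hp
      apply expo (hS.b p.1 p.2 h6.1 (by omega)) _ hk
      have h7 : N ≤ (p.2 - 2) * N := Nat.le_mul_of_pos_left _ (by omega)
      omega
    · rintro ⟨c, j⟩ hp ⟨c', j'⟩ hp' heq
      have h6 := (hmemI _).1 hp
      have h7 := (hmemI _).1 hp'
      simp only at h6 h7 heq
      obtain ⟨h8, h9⟩ := hinj c c' j j' (by omega) (by omega) heq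
      subst h8
      subst h9
      rfl
  linarith

end Pool.Agent.Q298.PV
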